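import Pool.Agent.H17.VG.TargetsG

/-!
# MP_70ba79_ag: the derivations `∂_M` on `K`
-/

set_option autoImplicit false

namespace Pool.Agent.H64.VG

open MvPolynomial SC Pool.Agent.H27.LV Pool.Agent.H17.VG

/-- a derivation which vanishes on a family over which `k` is algebraic is zero -/
theorem der_zero {R k K ι : Type} [Field R] [Field k] [CharZero k] [Field K] [Algebra R k]
    [Algebra k K] [Algebra R K] [IsScalarTower R k K] (x : ι → k)
    (hal : Algebra.IsAlgebraic (IntermediateField.adjoin R (Set.range x)) k)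
    (δ : Derivation R k K) (h0 : ∀ i, δ (x i) = 0) (a : k) : δ a = 0 := by
  let L := IntermediateField.adjoin R (Set.range x)
  have hL : ∀ l ∈ L, δ l = 0 := by
    intro l hl
    induction hl using IntermediateField.adjoin_induction with
    | mem y hy =>
      obtain ⟨i, rfl⟩ := hy
      exact h0 i
    | algebraMap y => exact δ.map_algebraMap y
    | add y z _ _ h1 h2 => rw [map_add, h1, h2, add_zero]
    | inv y _ h1 => rw [δ.leibniz_inv, h1, smul_zero]
    | mul y z _ _ h1 h2 => rw [δ.leibniz, h1, h2, smul_zero, smul_zero, add_zero]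
  let δL : Derivation L k K := Derivation.mk'
    { toFun := δ
      map_add' := δ.map_add
      map_smul' := by
        intro l b
        have h1 : l • b = (l : k) * b := rfl
        have h2 : l • δ b = (l : k) • δ b := (algebraMap_smul k l (δ b)).symm
        rw [h1, δ.leibniz, hL l l.2, smul_zero, add_zero]
        exact h2.symm }
    (fun b b' => δ.leibniz b b')
  have hint : IsIntegral L a := (hal.isAlgebraic a).isIntegral
  have hsep : (minpoly L a).Separable := (minpoly.irreducible hint).separable
  have h1 := δL.map_aeval (minpoly L a) a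
  rw [minpoly.aeval, map_zero] at h1
  have h2 := hsep.aeval_derivative_ne_zero (minpoly.aeval L a)
  have h3 : δL a = 0 := by
    rcases smul_eq_zero.1 h1.symm with h | h
    · exact absurd h h2
    · exact h
  exact h3

theorem dx (hG1 : T_G1) : T_DX := by
  intro k _ _ _ n d c R hc hal K _ _ _ _ g
  classical
  have hb : IsTranscendenceBasis R (fun M : {M : Mon (n + 1) d // ¬ Wm M} => c M.1) := by
    rw [hc.isTranscendenceBasis_iff_isAlgebraic]
    exact IntermediateField.isAlgebraic_adjoin_iff_top.1 hal
  obtain ⟨s, hs⟩ := exists_isTranscendenceBasis k K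
  have hbK := hb.sumElim_comp hs
  obtain ⟨θ0, hθ0⟩ := hG1 R k _ _ hb g
  obtain ⟨θ, hθ⟩ := hG1 R K _ _ hbK (Sum.elim (fun _ => 0) (fun M => algebraMap k K (g M)))
  have hθ' : ∀ M : {M : Mon (n + 1) d // ¬ Wm M},
      θ (algebraMap k K (c M.1)) = algebraMap k K (g M) := fun M => hθ (Sum.inr M)
  refine ⟨θ, ?_, hθ'⟩
  intro a
  refine ⟨θ0 a, ?_⟩
  let δ : Derivation R k K := θ.compAlgebraMap k - (Algebra.linearMap k K).compDer θ0
  have hδ : ∀ a, δ a = θ (algebraMap k K a) - algebraMap k K (θ0 a) := fun a => rfl
  have h1 := der_zero (fun M : {M : Mon (n + 1) d // ¬ Wm M} => c M.1) hal δ (fun M => by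
    rw [hδ, hθ', hθ0, sub_self]) a
  rw [hδ] at h1
  exact sub_eq_zero.1 h1

end Pool.Agent.H64.VG
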