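import Pool.Agent.H17.VG.TargetsG

/-!
# MP_70ba79_ag: the matrix of the coefficients of `X_j ∂_i F` is invertible
-/

set_option autoImplicit false

namespace Pool.Agent.H64.VG

open MvPolynomial SC Pool.Agent.H27.LV Pool.Agent.H17.VG

section
variable {n e : ℕ}

/-- entries for one monomial, over the rational numbers -/
noncomputable def rr (q p : Fin (n + 1) × Fin (n + 1)) (f : Mon (n + 1) (e + 1)) : ℚ :=
  coeff (Finsupp.single q.1 1 + Finsupp.single q.2 e) (X p.2 * pderiv p.1 (mono ℚ f.1))

theorem entry {L : Type} [Field L] [CharZero L] (c : Mon (n + 1) (e + 1) → L)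
    (q p : Fin (n + 1) × Fin (n + 1)) :
    coeff (Finsupp.single q.1 1 + Finsupp.single q.2 e) (X p.2 * pderiv p.1 (frm c)) =
      ∑ f, c f * algebraMap ℚ L (rr q p f) := by
  have h1 : X p.2 * pderiv p.1 (frm c) =
      ∑ f, C (c f) * (X p.2 * pderiv p.1 (mono L f.1)) := by
    unfold frm
    rw [map_sum, Finset.mul_sum]
    refine Finset.sum_congr rfl fun f _ => ?_
    rw [pderiv_C_mul]
    ring
  rw [h1, coeff_sum]
  refine Finset.sum_congr rfl fun f _ => ?_
  rw [coeff_C_mul]
  congr 1
  have h2 : mono L f.1 = MvPolynomial.map (algebraMap ℚ L) (mono ℚ f.1) := by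
    unfold mono
    rw [MvPolynomial.map_monomial, map_one (algebraMap ℚ L)]
  rw [h2, pderiv_map, rr, ← coeff_map, map_mul, map_X]

theorem sing (he : 2 ≤ e) (a b i j : Fin (n + 1)) :
    (Finsupp.single a 1 + Finsupp.single b e : Fin (n + 1) →₀ ℕ) =
      Finsupp.single i 1 + Finsupp.single j e ↔ (a = i ∧ b = j) := by
  constructor
  · intro h
    have hb : b = j := by
      by_contra hne
      have h1 := DFunLike.congr_fun h b
      simp only [Finsupp.add_apply, Finsupp.single_apply, if_neg (fun h : j = b => hne h.symm),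
        if_true] at h1
      split_ifs at h1 <;> omega
    subst hb
    refine ⟨?_, rfl⟩
    have h2 := add_right_cancel h
    have h3 := (Finsupp.single_eq_single_iff _ _ _ _).1 h2
    rcases h3 with h3 | h3
    · exact h3.1
    · exact absurd h3.1 one_ne_zero
  · rintro ⟨rfl, rfl⟩
    rfl

/-- the Fermat form -/
noncomputable def c0 (f : Mon (n + 1) (e + 1)) : ℚ := if ∃ i, f.1 i = e + 1 then 1 else 0

theorem frm_c0 : frm (c0 : Mon (n + 1) (e + 1) → ℚ) = ∑ i, X i ^ (e + 1) := by
  classical
  have h1 : (∑ i : Fin (n + 1), X i ^ (e + 1) : MvPolynomial (Fin (n + 1)) ℚ).IsHomogeneous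
      (e + 1) := by
    refine IsHomogeneous.sum _ _ _ fun i _ => ?_
    have := (isHomogeneous_X ℚ i).pow (e + 1)
    simpa using this
  rw [← frm_coeff h1]
  congr 1
  funext f
  rw [coeff_sum]
  have h2 : ∀ i : Fin (n + 1), coeff (fs f.1) (X i ^ (e + 1) : MvPolynomial (Fin (n + 1)) ℚ) =
      if f.1 i = e + 1 then 1 else 0 := by
    intro i
    rw [coeff_X_pow]
    by_cases hi : f.1 i = e + 1
    · rw [if_pos hi, if_pos]
      ext j
      rw [fs_apply, Finsupp.single_apply]
      have hs := f.2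
      rw [← Finset.add_sum_erase _ _ (Finset.mem_univ i), hi] at hs
      by_cases hj : i = j
      · subst hj
        rw [if_pos rfl, hi]
      · rw [if_neg hj]
        have h3 : ∑ x ∈ Finset.univ.erase i, f.1 x = 0 := by omega
        rw [Finset.sum_eq_zero_iff] at h3
        exact (h3 j (Finset.mem_erase.2 ⟨fun h => hj h.symm, Finset.mem_univ _⟩)).symm
    · rw [if_neg hi, if_neg]
      intro h
      apply hi
      have := DFunLike.congr_fun h i
      rw [fs_apply, Finsupp.single_eq_same] at this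
      exact this.symm
  simp only [h2]
  unfold c0
  split_ifs with h
  · obtain ⟨i, hi⟩ := h
    rw [Finset.sum_eq_single i]
    · rw [if_pos hi]
    · intro j _ hj
      rw [if_neg]
      intro hj'
      have hs := f.2
      rw [← Finset.add_sum_erase _ _ (Finset.mem_univ i), hi,
        ← Finset.add_sum_erase _ _ (Finset.mem_erase.2 ⟨hj, Finset.mem_univ j⟩), hj'] at hs
      omega
    · intro h
      exact absurd (Finset.mem_univ i) h
  · push Not at h
    exact (Finset.sum_eq_zero fun i _ => if_neg (h i)).symm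

theorem mat0 (he : 2 ≤ e) (q p : Fin (n + 1) × Fin (n + 1)) :
    coeff (Finsupp.single q.1 1 + Finsupp.single q.2 e)
      (X p.2 * pderiv p.1 (frm (c0 : Mon (n + 1) (e + 1) → ℚ))) =
      if q = p.swap then (e + 1 : ℚ) else 0 := by
  classical
  have h1 : X p.2 * pderiv p.1 (frm (c0 : Mon (n + 1) (e + 1) → ℚ)) =
      monomial (Finsupp.single p.2 1 + Finsupp.single p.1 e) (e + 1 : ℚ) := by
    rw [frm_c0, map_sum, Finset.sum_eq_single p.1]
    · rw [X_pow_eq_monomial, pderiv_monomial_single, X, monomial_mul]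
      simp
    · intro i _ hi
      rw [pderiv_pow, pderiv_X_of_ne hi, mul_zero]
    · intro h
      exact absurd (Finset.mem_univ _) h
  rw [h1, coeff_monomial]
  refine if_congr ?_ rfl rfl
  rw [sing he]
  constructor
  · rintro ⟨h2, h3⟩
    exact Prod.ext h2.symm h3.symm
  · intro h
    rw [h]
    exact ⟨rfl, rfl⟩

end

theorem fe : T_FE := by
  classical
  intro k _ _ n e c he hc
  let MA : Matrix (Fin (n + 1) × Fin (n + 1)) (Fin (n + 1) × Fin (n + 1))
      (MvPolynomial (Mon (n + 1) (e + 1)) ℚ) := Matrix.of fun q p => ∑ f, X f * C (rr q p f)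
  have hmap : ∀ (L : Type) [Field L] [CharZero L] (c : Mon (n + 1) (e + 1) → L),
      (Matrix.of fun q p : Fin (n + 1) × Fin (n + 1) =>
        coeff (Finsupp.single q.1 1 + Finsupp.single q.2 e) (X p.2 * pderiv p.1 (frm c))).det =
      aeval c MA.det := by
    intro L _ _ c
    rw [AlgHom.map_det]
    congr 1
    ext q p
    simp only [AlgHom.mapMatrix_apply, Matrix.map_apply, MA, Matrix.of_apply]
    rw [entry, map_sum]
    refine Finset.sum_congr rfl fun f _ => ?_
    rw [map_mul, aeval_X, aeval_C]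
  rw [hmap]
  intro h0
  have hdet : MA.det = 0 := by
    apply hc
    rw [h0, map_zero]
  have h1 := hmap ℚ (c0 : Mon (n + 1) (e + 1) → ℚ)
  rw [hdet, map_zero] at h1
  have h2 : (Matrix.of fun q p : Fin (n + 1) × Fin (n + 1) =>
        coeff (Finsupp.single q.1 1 + Finsupp.single q.2 e) (X p.2 * pderiv p.1
          (frm (c0 : Mon (n + 1) (e + 1) → ℚ)))) =
      (((e + 1 : ℚ)) • (1 : Matrix (Fin (n + 1) × Fin (n + 1)) (Fin (n + 1) × Fin (n + 1)) ℚ)).submatrix
        id (Equiv.prodComm (Fin (n + 1)) (Fin (n + 1))) := by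
    ext q p
    rw [Matrix.of_apply, mat0 he, Matrix.submatrix_apply, Matrix.smul_apply, Matrix.one_apply]
    by_cases hqp : q = p.swap
    · rw [if_pos hqp, if_pos (show id q = Equiv.prodComm (Fin (n + 1)) (Fin (n + 1)) p from hqp)]
      simp
    · rw [if_neg hqp, if_neg (show ¬ id q = Equiv.prodComm (Fin (n + 1)) (Fin (n + 1)) p from hqp)]
      simp
  rw [h2, Matrix.det_permute', Matrix.det_smul, Matrix.det_one, mul_one] at h1
  have h3 : (e + 1 : ℚ) ≠ 0 := by positivity
  rcases mul_eq_zero.1 h1 with h4 | h4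
  · have h5 : ((Equiv.Perm.sign (Equiv.prodComm (Fin (n + 1)) (Fin (n + 1))) : ℤˣ) : ℤ) ≠ 0 :=
      Units.ne_zero _
    exact h5 (by exact_mod_cast h4)
  · exact pow_ne_zero _ h3 h4

end Pool.Agent.H64.VG
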